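import Pool.Agent.V8H72.LC.Ult
import Pool.Agent.N95.GH.Arith

/-!
Points of bounded degree over finitely generated fields of the projective sets which are finite over
products of symmetric powers of generic complete intersections.
-/

set_option autoImplicit false
set_option linter.unusedSectionVars false
set_option linter.overlappingInstances false

open LinearAlgebra.Projectivization
open Pool.Agent.N111.GI (GenericCI)
open Pool.Agent.N95.GH (OnSet BiHom Rel eqs eqs_form point_iff exists_fib deg_few not_inj)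

namespace Pool.Agent.V8H72.LC

section compositum

variable {k0 K : Type} [Field k0] [CharZero k0] [Field K] [Algebra k0 K]

/-- the compositum of an extension of bounded degree with a larger field -/
theorem compositum {F F1 : IntermediateField k0 K} (h : F ≤ F1) {q : ℕ}
    (L : IntermediateField F K) [FiniteDimensional F L] (hL : Module.finrank F L ≤ q) :
    ∃ L1 : IntermediateField F1 K, FiniteDimensional F1 L1 ∧ Module.finrank F1 L1 ≤ q ∧
      ∀ t : K, t ∈ L → t ∈ L1 := by
  have hF : CharZero F := charZero_of_injective_algebraMap (algebraMap k0 F).injective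
  obtain ⟨θ, hθ⟩ := Field.exists_primitive_element F L
  have hθi : IsIntegral F (θ : K) := (Algebra.IsIntegral.isIntegral (R := F) θ).map L.val
  obtain ⟨P, hP⟩ : ∃ P : Polynomial F1,
    P = (minpoly F (θ : K)).map (IntermediateField.inclusion h : F →ₐ[k0] F1).toRingHom :=
    ⟨_, rfl⟩
  have hPm : P.Monic := by
    rw [hP]
    exact (minpoly.monic hθi).map _
  have hPθ : Polynomial.aeval (θ : K) P = 0 := by
    rw [hP, Polynomial.aeval_def, Polynomial.eval₂_map]
    have h1 := minpoly.aeval F (θ : K)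
    rw [Polynomial.aeval_def] at h1
    exact h1
  have hPd : P.natDegree ≤ q := by
    rw [hP]
    refine (Polynomial.natDegree_map_le).trans ?_
    have h1 : Module.finrank F (IntermediateField.adjoin F {(θ : K)}) =
        (minpoly F (θ : K)).natDegree := IntermediateField.adjoin.finrank hθi
    have h2 : Module.finrank F L = (minpoly F (θ : K)).natDegree := by
      have h3 : minpoly F (θ : K) = minpoly F θ :=
        minpoly.algHom_eq L.val L.val.injective θ
      rw [h3, ← IntermediateField.adjoin.finrank (Algebra.IsIntegral.isIntegral (R := F) θ), hθ]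
      exact (IntermediateField.finrank_top').symm
    omega
  have hθ1 : IsIntegral F1 (θ : K) := ⟨P, hPm, hPθ⟩
  refine ⟨IntermediateField.adjoin F1 {(θ : K)},
    IntermediateField.adjoin.finiteDimensional hθ1, ?_, fun t ht => ?_⟩
  · rw [IntermediateField.adjoin.finrank hθ1]
    exact (Polynomial.natDegree_le_of_dvd (minpoly.dvd F1 _ hPθ) hPm.ne_zero).trans hPd
  · have h1 : (⟨t, ht⟩ : L) ∈ IntermediateField.adjoin F {θ} := by
      rw [hθ]
      exact IntermediateField.mem_top
    have h2 : t ∈ (IntermediateField.adjoin F {θ}).map L.val := ⟨⟨t, ht⟩, h1, rfl⟩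
    rw [IntermediateField.adjoin_map, Set.image_singleton] at h2
    change t ∈ IntermediateField.adjoin F {(θ : K)} at h2
    have h3 : (IntermediateField.adjoin F {(θ : K)}).toSubfield ≤
        (IntermediateField.adjoin F1 {(θ : K)}).toSubfield := by
      rw [IntermediateField.adjoin_toSubfield]
      refine Subfield.closure_le.2 ?_
      rintro x (⟨y, rfl⟩ | hx)
      · exact IntermediateField.algebraMap_mem (IntermediateField.adjoin F1 {(θ : K)})
          (⟨(y : K), h y.2⟩ : F1)
      · exact IntermediateField.subset_adjoin _ _ hx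
    exact h3 h2

end compositum

variable {k K : Type} [Field k] [Field K] [Algebra k K] [IsAlgClosed K] [CharZero K] {M : ℕ}
  {Φ : Set (MvPolynomial (Fin (M + 1)) K)} {J : Type} {X : J → GenericCI k K} {r : J → ℕ}

/-- **Points of bounded degree over finitely generated fields.** -/
theorem JointCor.fin_points [Finite J] (C : JointCor Φ X r) (hΦ : ∀ f ∈ Φ, ∃ e, f.IsHomogeneous e)
    {q : ℕ} (hd : ∀ j, 2 * (X j).m + 1 + q * r j ≤ ∑ a, ((X j).d a + 1)) (T : Finset K) :
    {p : ℙ K (Fin (M + 1) → K) | ∃ (z : Fin (M + 1) → K) (hz : z ≠ 0),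
      p = Projectivization.mk K z hz ∧ (∀ f ∈ Φ, MvPolynomial.aeval z f = 0) ∧
      ∃ L : IntermediateField (IntermediateField.adjoin (algebraicClosure k K) (T : Set K)) K,
        FiniteDimensional (IntermediateField.adjoin (algebraicClosure k K) (T : Set K)) L ∧
        Module.finrank (IntermediateField.adjoin (algebraicClosure k K) (T : Set K)) L ≤ q ∧
        ∀ i, z i ∈ L}.Finite := by
  classical
  -- finitely many equations
  obtain ⟨P, hP⟩ : ∃ P : ∀ j, Set (MvPolynomial (Fin (M + 1) ⊕ Fin ((X j).n + 1)) K),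
    P = fun j => C.Γ j ∪ MvPolynomial.rename Sum.inr '' eqs (X j) := ⟨_, rfl⟩
  have hGs' : ∀ j, ∃ Gs : Finset (MvPolynomial (Fin (M + 1) ⊕ Fin ((X j).n + 1)) K),
      ↑Gs ⊆ P j ∧ Ideal.span (P j) = Ideal.span (Gs : Set _) := by
    intro j
    have h1 : (Submodule.span (MvPolynomial (Fin (M + 1) ⊕ Fin ((X j).n + 1)) K) (P j)).FG :=
      (Ideal.fg_of_isNoetherianRing (Ideal.span (P j)) : (Ideal.span (P j)).FG)
    exact (Submodule.fg_span_iff_fg_span_finset_subset _).1 h1
  choose Gs hGs hspan using hGs'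
  have hGP : ∀ (j : J) (u : Fin (M + 1) ⊕ Fin ((X j).n + 1) → K),
      (∀ f ∈ Gs j, MvPolynomial.aeval u f = 0) → ∀ f ∈ P j, MvPolynomial.aeval u f = 0 := by
    intro j u hu f hf
    have h1 : f ∈ Ideal.span
        (Gs j : Set (MvPolynomial (Fin (M + 1) ⊕ Fin ((X j).n + 1)) K)) := by
      rw [← hspan]
      exact Ideal.subset_span hf
    have h2 : Ideal.span (Gs j : Set (MvPolynomial (Fin (M + 1) ⊕ Fin ((X j).n + 1)) K)) ≤
        RingHom.ker (MvPolynomial.aeval u :
          MvPolynomial (Fin (M + 1) ⊕ Fin ((X j).n + 1)) K →ₐ[K] K).toRingHom :=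
      Ideal.span_le.2 fun f hf => hu f hf
    exact h2 h1
  have hPe : ∀ (j : J) (z : Fin (M + 1) → K) (x : Fin ((X j).n + 1) → K),
      (∀ f ∈ P j, MvPolynomial.aeval (Sum.elim z x) f = 0) ↔
        Rel (C.Γ j) z x ∧ ∀ f ∈ eqs (X j), MvPolynomial.aeval x f = 0 := by
    intro j z x
    rw [hP]
    have h1 : ∀ f : MvPolynomial (Fin ((X j).n + 1)) K,
        MvPolynomial.aeval (Sum.elim z x) (MvPolynomial.rename Sum.inr f) =
          MvPolynomial.aeval x f := by
      intro f
      rw [MvPolynomial.aeval_rename, Sum.elim_comp_inr]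
    constructor
    · intro h
      exact ⟨fun T hT => h T (Or.inl hT), fun f hf => by
        rw [← h1]; exact h _ (Or.inr ⟨f, hf, rfl⟩)⟩
    · rintro ⟨h2, h3⟩ p (hp | ⟨f, hf, rfl⟩)
      · exact h2 p hp
      · rw [h1]
        exact h3 f hf
  have := Fintype.ofFinite J
  obtain ⟨T1, hT1⟩ : ∃ T1 : Finset K, T1 = T ∪ Finset.univ.biUnion fun j =>
    (Gs j).biUnion fun f => f.coeffs := ⟨_, rfl⟩
  have hk0 : CharZero (algebraicClosure k K) :=
    (algebraMap (algebraicClosure k K) K).charZero
  have hcz : CharZero (IntermediateField.adjoin (algebraicClosure k K) (T1 : Set K)) :=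
    (algebraMap (IntermediateField.adjoin (algebraicClosure k K) (T1 : Set K)) K).charZero
  have hle : IntermediateField.adjoin (algebraicClosure k K) (T : Set K) ≤
      IntermediateField.adjoin (algebraicClosure k K) (T1 : Set K) := by
    refine IntermediateField.adjoin.mono _ _ _ ?_
    rw [hT1]
    exact Finset.coe_subset.2 Finset.subset_union_left
  have hX := fun j => Pool.Agent.Y735.R2.fin_proj_alg (r := q * r j) (hd j) (X j).V (X j).V_form
    (X j).V_dim (X j).F (X j).F_form (X j).I₀ (X j).coeff_ne (X j).generic T1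
  refine (C.fin_same _ hX).subset ?_
  rintro p ⟨z, hz, rfl, hzΦ, L, hLf, hLq, hzL⟩
  obtain ⟨L1, hL1f, hL1q, hLL⟩ := compositum hle L hLq
  have hL1z : CharZero L1 := charZero_of_injective_algebraMap
    (algebraMap (IntermediateField.adjoin (algebraicClosure k K) (T1 : Set K)) L1).injective
  obtain ⟨e, he⟩ := Projectivization.exists_smul_eq_mk_rep K z hz
  have he' : (Projectivization.mk K z hz).rep = fun j => (e : K) * z j := by
    rw [← he]
    rfl
  have hzO : OnSet Φ z := ⟨hz, hzΦ⟩
  refine ⟨?_, fun j x hx hR => ?_⟩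
  · rw [he']
    exact Pool.Agent.N95.GH.OnSet.scale hΦ hzO e.ne_zero
  -- normalized coordinates
  obtain ⟨b0, hb0'⟩ := Function.ne_iff.1 hx.ne
  have hb0 : x b0 ≠ 0 := hb0'
  obtain ⟨x1, hx1⟩ : ∃ x1 : Fin ((X j).n + 1) → K, x1 = fun i => (x b0)⁻¹ * x i := ⟨_, rfl⟩
  have hx1b : x1 b0 = 1 := by rw [hx1]; exact inv_mul_cancel₀ hb0
  have hx1S : OnSet (eqs (X j)) x1 := by
    rw [hx1]
    exact Pool.Agent.N95.GH.OnSet.scale (fun f hf => eqs_form hf) (point_iff.1 hx)
      (inv_ne_zero hb0)
  have hx1P : (X j).Point x1 := point_iff.2 hx1S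
  have hx1R : Rel (C.Γ j) z x1 := by
    have h1 := hR.scale (C.bihom j) (e : K)⁻¹ (x b0)⁻¹
    rw [hx1]
    have h2 : (fun i => (e : K)⁻¹ * (Projectivization.mk K z hz).rep i) = z := by
      funext i
      rw [he']
      change (e : K)⁻¹ * ((e : K) * z i) = z i
      rw [← mul_assoc, inv_mul_cancel₀ e.ne_zero, one_mul]
    rw [h2] at h1
    exact h1
  -- the degree of the point
  have hg : ∀ f : Gs j, ∃ g : MvPolynomial (Fin ((X j).n + 1)) L1,
      ∀ x : Fin ((X j).n + 1) → K, MvPolynomial.aeval x g =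
        MvPolynomial.aeval (Sum.elim z x) f.1 := by
    intro f
    refine exists_fib (F := L1) (fun c hc => ?_) fun i => ⟨⟨z i, hLL _ (hzL i)⟩, rfl⟩
    have h1 : c ∈ IntermediateField.adjoin (algebraicClosure k K) (T1 : Set K) := by
      refine IntermediateField.subset_adjoin _ _ ?_
      rw [hT1]
      exact Finset.mem_coe.2 (Finset.mem_union_right _ (Finset.mem_biUnion.2
        ⟨j, Finset.mem_univ _, Finset.mem_biUnion.2 ⟨f.1, f.2, hc⟩⟩))
    exact ⟨algebraMap _ L1 (⟨c, h1⟩ :
      IntermediateField.adjoin (algebraicClosure k K) (T1 : Set K)), rfl⟩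
  choose g hg using hg
  obtain ⟨hfd, hrk⟩ := deg_few (F := L1) (K := K) (r := r j) (𝒬 := Set.range g) (b0 := b0)
    (fun p hp hpQ => not_inj hp (C.few K z hzO j p fun l => by
      have h1 := (hPe j z (p l)).1 (hGP j _ fun f hf => by
        rw [← hg ⟨f, hf⟩]
        exact hpQ l _ ⟨_, rfl⟩)
      refine ⟨point_iff.2 ⟨fun h => ?_, h1.2⟩, h1.1⟩
      have h2 := hp l
      rw [h] at h2
      exact zero_ne_one h2)) hx1b (by
    rintro _ ⟨f, rfl⟩
    rw [hg]
    exact (hPe j z x1).2 ⟨hx1R, hx1S.2⟩ f.1 (hGs j f.2))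
  have hmk : Projectivization.mk K x hx.ne = Projectivization.mk K x1 hx1P.ne := by
    rw [Projectivization.mk_eq_mk_iff']
    refine ⟨x b0, funext fun i => ?_⟩
    rw [hx1]
    change x b0 * ((x b0)⁻¹ * x i) = x i
    rw [← mul_assoc, mul_inv_cancel₀ hb0, one_mul]
  rw [hmk]
  have hst : IsScalarTower (IntermediateField.adjoin (algebraicClosure k K) (T1 : Set K)) L1
      (IntermediateField.adjoin L1 (Set.range x1)) := inferInstance
  refine ⟨x1, fun f hf => ?_, fun a => ?_, ⟨(IntermediateField.adjoin L1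
    (Set.range x1)).restrictScalars _, ?_, ?_, fun i => ?_⟩, hx1P.ne, rfl⟩
  · have h2 := hx1P.mem_V f hf
    rwa [MvPolynomial.aeval_map_algebraMap] at h2
  · have h2 := hx1P.mem_F a
    rwa [MvPolynomial.aeval_eq_eval] at h2
  · exact FiniteDimensional.trans
      (IntermediateField.adjoin (algebraicClosure k K) (T1 : Set K)) L1
      (IntermediateField.adjoin L1 (Set.range x1))
  · change Module.finrank (IntermediateField.adjoin (algebraicClosure k K) (T1 : Set K))
      (IntermediateField.adjoin L1 (Set.range x1)) ≤ q * r j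
    rw [← Module.finrank_mul_finrank
      (IntermediateField.adjoin (algebraicClosure k K) (T1 : Set K)) L1
      (IntermediateField.adjoin L1 (Set.range x1))]
    exact Nat.mul_le_mul hL1q hrk
  · exact IntermediateField.subset_adjoin L1 _ ⟨i, rfl⟩

end Pool.Agent.V8H72.LC
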