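import Pool.Agent.V8H72.LC.Cor
import Pool.Agent.W602.RG.Defs

/-!
Ultrapowers of algebraically closed fields, and the finiteness of the set of the points of a
projective set for which all points in the fibres of a finite family of correspondences belong to
finite sets.
-/

set_option autoImplicit false
set_option linter.unusedSectionVars false
set_option linter.overlappingInstances false

open LinearAlgebra.Projectivization Filter
open Pool.Agent.N111.GI (GenericCI)
open Pool.Agent.N95.GH (OnSet BiHom Rel eqs eqs_form point_iff)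
open Pool.Agent.W602.RG (Om cst)

namespace Pool.Agent.V8H72.LC

section om

variable {K : Type} [Field K]

/-- the homomorphism from the sequences to the ultrapower -/
noncomputable def mkHom (K : Type) [Field K] : (ℕ → K) →ₐ[K] Om K where
  toFun u := Om.mk u
  map_one' := rfl
  map_mul' _ _ := rfl
  map_zero' := rfl
  map_add' _ _ := rfl
  commutes' _ := rfl

theorem mkHom_apply (u : ℕ → K) : mkHom K u = Om.mk u := rfl

theorem mk_cst (c : K) : algebraMap K (Om K) c = Om.mk fun _ => c := rfl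

theorem om_closed [IsAlgClosed K] : IsAlgClosed (Om K) := by
  refine IsAlgClosed.of_exists_root _ fun f hf hirr => ?_
  have hdeg : 0 < f.natDegree := hirr.natDegree_pos
  choose c hc using fun j => Om.mk_surj (f.coeff j)
  have h1 : ∀ p : ℕ, ∃ x : K,
      x ^ f.natDegree + ∑ j ∈ Finset.range f.natDegree, c j p * x ^ j = 0 := by
    intro p
    obtain ⟨g, hg⟩ : ∃ g : Polynomial K, g = Polynomial.X ^ f.natDegree +
      ∑ j ∈ Finset.range f.natDegree, Polynomial.C (c j p) * Polynomial.X ^ j := ⟨_, rfl⟩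
    have hgd : g.degree = f.natDegree := by
      have h2 : (∑ j ∈ Finset.range f.natDegree,
          Polynomial.C (c j p) * Polynomial.X ^ j : Polynomial K).degree <
          (Polynomial.X ^ f.natDegree : Polynomial K).degree := by
        rw [Polynomial.degree_X_pow]
        refine (Polynomial.degree_sum_le _ _).trans_lt ?_
        rw [Finset.sup_lt_iff (by exact WithBot.bot_lt_coe _)]
        intro j hj
        refine (Polynomial.degree_C_mul_X_pow_le j _).trans_lt ?_
        exact_mod_cast Finset.mem_range.mp hj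
      rw [hg, Polynomial.degree_add_eq_left_of_degree_lt h2, Polynomial.degree_X_pow]
    obtain ⟨x, hx⟩ := IsAlgClosed.exists_root g (by
      rw [hgd]
      exact_mod_cast hdeg.ne')
    refine ⟨x, ?_⟩
    rw [Polynomial.IsRoot, hg] at hx
    simpa [Polynomial.eval_finsetSum] using hx
  choose x hx using h1
  refine ⟨Om.mk x, ?_⟩
  rw [Polynomial.eval_eq_sum_range, Finset.sum_range_succ, hf.coeff_natDegree, one_mul, add_comm]
  have h2 : mkHom K (x ^ f.natDegree + ∑ j ∈ Finset.range f.natDegree, c j * x ^ j) = 0 := by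
    have h3 : x ^ f.natDegree + ∑ j ∈ Finset.range f.natDegree, c j * x ^ j = 0 := by
      funext p
      have := hx p
      simpa [Finset.sum_apply] using this
    rw [h3, map_zero]
  rw [map_add, map_pow, map_sum] at h2
  rw [← h2, mkHom_apply]
  congr 1
  refine Finset.sum_congr rfl fun j _ => ?_
  rw [map_mul, map_pow, mkHom_apply, mkHom_apply, hc]

/-- values of polynomials -/
theorem aeval_mk {τ : Type} (u : ℕ → τ → K) (P : MvPolynomial τ K) :
    MvPolynomial.aeval (fun i => Om.mk fun n => u n i) P =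
      Om.mk fun n => MvPolynomial.aeval (u n) P := by
  have h1 : (mkHom K).comp (MvPolynomial.aeval fun i => fun n => u n i) =
      MvPolynomial.aeval fun i => Om.mk fun n => u n i := by
    apply MvPolynomial.algHom_ext
    intro i
    rw [AlgHom.comp_apply, MvPolynomial.aeval_X, MvPolynomial.aeval_X]
    rfl
  rw [← h1, AlgHom.comp_apply, mkHom_apply]
  congr 1
  funext n
  have h2 : (Pi.evalAlgHom K (fun _ : ℕ => K) n).comp
      (MvPolynomial.aeval fun i => fun n => u n i) = MvPolynomial.aeval (u n) := by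
    apply MvPolynomial.algHom_ext
    intro i
    rw [AlgHom.comp_apply, MvPolynomial.aeval_X, MvPolynomial.aeval_X]
    rfl
  rw [← h2]
  rfl

theorem mk_eq_zero {u : ℕ → K} : Om.mk u = 0 ↔ ∀ᶠ n in (hyperfilter ℕ : Filter ℕ), u n = 0 := by
  rw [← Om.mk_zero, Om.mk_eq]

theorem mk_ne_zero {u : ℕ → K} : Om.mk u ≠ 0 ↔ ∀ᶠ n in (hyperfilter ℕ : Filter ℕ), u n ≠ 0 := by
  rw [Ne, mk_eq_zero]
  exact Ultrafilter.eventually_not.symm

end om

variable {k K : Type} [Field k] [Field K] [Algebra k K] [IsAlgClosed K] [CharZero K] {M : ℕ}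
  {Φ : Set (MvPolynomial (Fin (M + 1)) K)} {J : Type} {X : J → GenericCI k K} {r : J → ℕ}

/-- **Finiteness.** -/
theorem JointCor.fin_same (C : JointCor Φ X r) (S : ∀ j, Set (ℙ K (Fin ((X j).n + 1) → K)))
    (hS : ∀ j, (S j).Finite) :
    {q : ℙ K (Fin (M + 1) → K) | OnSet Φ q.rep ∧ ∀ (j : J) (x : Fin ((X j).n + 1) → K)
      (hx : (X j).Point x), Rel (C.Γ j) q.rep x → Projectivization.mk K x hx.ne ∈ S j}.Finite := by
  classical
  by_contra hcon
  obtain ⟨Q, hQ⟩ : ∃ Q : Set (ℙ K (Fin (M + 1) → K)), Q = {q | OnSet Φ q.rep ∧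
    ∀ (j : J) (x : Fin ((X j).n + 1) → K)
      (hx : (X j).Point x), Rel (C.Γ j) q.rep x → Projectivization.mk K x hx.ne ∈ S j} := ⟨_, rfl⟩
  rw [← hQ] at hcon
  have hinf : Q.Infinite := hcon
  obtain ⟨c, hc⟩ := hinf.natEmbedding
  have hQ2 : ∀ q ∈ Q, OnSet Φ q.rep ∧ ∀ (j : J) (x : Fin ((X j).n + 1) → K)
      (hx : (X j).Point x), Rel (C.Γ j) q.rep x → Projectivization.mk K x hx.ne ∈ S j := by
    intro q hq
    rw [hQ] at hq
    exact hq
  have hcQ : ∀ n, OnSet Φ (c n : ℙ K (Fin (M + 1) → K)).rep ∧ ∀ (j : J)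
      (x : Fin ((X j).n + 1) → K) (hx : (X j).Point x),
      Rel (C.Γ j) (c n : ℙ K (Fin (M + 1) → K)).rep x → Projectivization.mk K x hx.ne ∈ S j :=
    fun n => hQ2 _ (c n).2
  obtain ⟨zn, hzn⟩ : ∃ zn : ℕ → Fin (M + 1) → K,
    zn = fun n => (c n : ℙ K (Fin (M + 1) → K)).rep := ⟨_, rfl⟩
  have hzn0 : ∀ n, zn n ≠ 0 := fun n => by
    rw [hzn]
    exact Projectivization.rep_nonzero _
  have hznQ : ∀ n, OnSet Φ (zn n) ∧ ∀ (j : J) (x : Fin ((X j).n + 1) → K) (hx : (X j).Point x),
      Rel (C.Γ j) (zn n) x → Projectivization.mk K x hx.ne ∈ S j := fun n => by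
    rw [hzn]
    exact hcQ n
  have hcl : IsAlgClosed (Om K) := om_closed
  obtain ⟨z, hz⟩ : ∃ z : Fin (M + 1) → Om K, z = fun i => Om.mk fun n => zn n i := ⟨_, rfl⟩
  have hzi : ∀ i, z i = Om.mk fun n => zn n i := fun i => by rw [hz]
  have hzO : OnSet Φ z := by
    constructor
    · intro h0
      have h1 : ∀ i, ∀ᶠ n in (hyperfilter ℕ : Filter ℕ), zn n i = 0 := fun i => by
        have h2 : z i = 0 := congrFun h0 i
        rw [hzi, mk_eq_zero] at h2
        exact h2
      obtain ⟨n, hn⟩ := (eventually_all.2 h1).exists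
      exact hzn0 n (funext hn)
    · intro f hf
      rw [hz, aeval_mk, mk_eq_zero]
      exact Eventually.of_forall fun n => (hznQ n).1.2 f hf
  have hbot : IsAlgClosed (⊥ : IntermediateField K (Om K)) :=
    IsAlgClosed.of_ringEquiv K _ (IntermediateField.botEquiv K (Om K)).symm.toRingEquiv
  have key : ∀ (j : J) (x : Fin ((X j).n + 1) → Om K), (X j).Point x → Rel (C.Γ j) z x →
      ∀ i i', x i' ≠ 0 → x i / x i' ∈ (⊥ : IntermediateField K (Om K)) := by
    intro j x hx hR i i' hi'
    choose y hy using fun i => Om.mk_surj (x i)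
    have hxe := point_iff.1 hx
    -- finitely many equations
    obtain ⟨P, hP⟩ : ∃ P : Set (MvPolynomial (Fin (M + 1) ⊕ Fin ((X j).n + 1)) K),
      P = C.Γ j ∪ MvPolynomial.rename Sum.inr '' eqs (X j) := ⟨_, rfl⟩
    obtain ⟨Gs, hGs, hspan⟩ : ∃ Gs : Finset (MvPolynomial (Fin (M + 1) ⊕ Fin ((X j).n + 1)) K),
        ↑Gs ⊆ P ∧ Ideal.span P = Ideal.span (Gs : Set _) := by
      have h1 : (Submodule.span (MvPolynomial (Fin (M + 1) ⊕ Fin ((X j).n + 1)) K) P).FG :=
        (Ideal.fg_of_isNoetherianRing (Ideal.span P) : (Ideal.span P).FG)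
      exact (Submodule.fg_span_iff_fg_span_finset_subset _).1 h1
    have hGP : ∀ (u : Fin (M + 1) ⊕ Fin ((X j).n + 1) → K),
        (∀ f ∈ Gs, MvPolynomial.aeval u f = 0) → ∀ f ∈ P, MvPolynomial.aeval u f = 0 := by
      intro u hu f hf
      have h1 : f ∈ Ideal.span (Gs : Set (MvPolynomial (Fin (M + 1) ⊕ Fin ((X j).n + 1)) K)) := by
        rw [← hspan]
        exact Ideal.subset_span hf
      have h2 : Ideal.span (Gs : Set (MvPolynomial (Fin (M + 1) ⊕ Fin ((X j).n + 1)) K)) ≤
          RingHom.ker (MvPolynomial.aeval u :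
            MvPolynomial (Fin (M + 1) ⊕ Fin ((X j).n + 1)) K →ₐ[K] K).toRingHom :=
        Ideal.span_le.2 fun f hf => hu f hf
      exact h2 h1
    have hzx : (Sum.elim z x : Fin (M + 1) ⊕ Fin ((X j).n + 1) → Om K) =
        fun a => Om.mk fun n => (Sum.elim (zn n) fun i => y i n) a := by
      funext a
      rcases a with a | a
      · exact hzi a
      · exact (hy a).symm
    have hxP : ∀ f ∈ P, MvPolynomial.aeval (Sum.elim z x) f = 0 := by
      intro f hf
      rw [hP] at hf
      rcases hf with hf | ⟨g, hg, rfl⟩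
      · exact hR f hf
      · rw [MvPolynomial.aeval_rename, Sum.elim_comp_inr]
        exact hxe.2 g hg
    have hev : ∀ᶠ n in (hyperfilter ℕ : Filter ℕ), ∀ f ∈ Gs,
        MvPolynomial.aeval (Sum.elim (zn n) fun i => y i n) f = 0 := by
      rw [Filter.eventually_all_finset]
      intro f hf
      have h1 := hxP f (hGs hf)
      rw [hzx, aeval_mk, mk_eq_zero] at h1
      exact h1
    have hi'2 : ∀ᶠ n in (hyperfilter ℕ : Filter ℕ), y i' n ≠ 0 := by
      rw [← hy, mk_ne_zero] at hi'
      exact hi'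
    have hS2 : ∀ᶠ n in (hyperfilter ℕ : Filter ℕ), ∃ s ∈ S j,
        y i n = s.rep i / s.rep i' * y i' n := by
      filter_upwards [hev, hi'2] with n h1 h2
      have h3 := hGP _ h1
      have h4 : Rel (C.Γ j) (zn n) fun i => y i n := fun f hf => h3 f (by
        rw [hP]
        exact Or.inl hf)
      have h5 : (X j).Point fun i => y i n := by
        refine point_iff.2 ⟨fun h0 => h2 (congrFun h0 i'), fun f hf => ?_⟩
        have h6 := h3 (MvPolynomial.rename Sum.inr f) (by
          rw [hP]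
          exact Or.inr ⟨f, hf, rfl⟩)
        rwa [MvPolynomial.aeval_rename, Sum.elim_comp_inr] at h6
      refine ⟨_, (hznQ n).2 j _ h5 h4, ?_⟩
      obtain ⟨a, ha⟩ := Projectivization.exists_smul_eq_mk_rep K _ h5.ne
      have h7 : ∀ i, (Projectivization.mk K _ h5.ne).rep i = (a : K) * y i n := fun i => by
        rw [← ha]
        rfl
      rw [h7, h7, mul_div_mul_left _ _ a.ne_zero, div_mul_cancel₀ _ h2]
    obtain ⟨s, hs, hsn⟩ := (Ultrafilter.eventually_exists_mem_iff (hS j)).1 hS2
    refine IntermediateField.mem_bot.2 ⟨s.rep i / s.rep i', ?_⟩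
    rw [eq_div_iff hi', mk_cst, ← hy i', ← hy i, Om.mk_mul, Om.mk_eq]
    filter_upwards [hsn] with n hn
    exact hn.symm
  have h1 := C.fin (Om K) z hzO ⊥ hbot key
  obtain ⟨i', hi'⟩ := Function.ne_iff.1 hzO.1
  have h2 : ∀ i, ∃ a : K, algebraMap K (Om K) a = z i / z i' := fun i =>
    IntermediateField.mem_bot.1 (h1 i i' hi')
  choose a ha using h2
  have h3 : ∀ i, ∀ᶠ n in (hyperfilter ℕ : Filter ℕ), zn n i = a i * zn n i' := by
    intro i
    have h4 := ha i
    rw [eq_div_iff hi', mk_cst, hzi, hzi, Om.mk_mul, Om.mk_eq] at h4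
    filter_upwards [h4] with n hn
    exact hn.symm
  have h5 : ∀ᶠ n in (hyperfilter ℕ : Filter ℕ), ∀ i, zn n i = a i * zn n i' := eventually_all.2 h3
  have h6 : {n | ∀ i, zn n i = a i * zn n i'}.Infinite := by
    intro hfin
    exact notMem_hyperfilter_of_finite hfin h5
  obtain ⟨n, hn, m, hm, hnm⟩ := h6.nontrivial
  apply hnm
  apply hc
  apply Subtype.ext
  rw [← Projectivization.mk_rep (c n : ℙ K (Fin (M + 1) → K)),
    ← Projectivization.mk_rep (c m : ℙ K (Fin (M + 1) → K)), Projectivization.mk_eq_mk_iff']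
  have hne : ∀ n, (∀ i, zn n i = a i * zn n i') → zn n i' ≠ 0 := by
    intro n hn h0
    apply hzn0 n
    funext i
    rw [hn, h0, mul_zero]
    rfl
  refine ⟨zn n i' / zn m i', ?_⟩
  have e1 : ∀ n, (c n : ℙ K (Fin (M + 1) → K)).rep = zn n := fun n => by rw [hzn]
  rw [e1, e1]
  funext i
  rw [Pi.smul_apply, smul_eq_mul, hn i, hm i]
  have := hne m hm
  field_simp

end Pool.Agent.V8H72.LC
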